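import Mathlib

set_option autoImplicit false

namespace Pool.Agent.H1.GSeq

/-- `S` is a dominating set of `G`: every vertex lies in `S` or has a neighbour in `S`. -/
def Dominating {V : Type} (G : SimpleGraph V) (S : Finset V) : Prop :=
  ∀ v : V, v ∈ S ∨ ∃ u ∈ S, G.Adj u v

/-- `S` is a `γ`-set of `G`: a dominating set of least possible size. -/
def IsGammaSet {V : Type} (G : SimpleGraph V) (S : Finset V) : Prop :=
  Dominating G S ∧ ∀ T : Finset V, Dominating G T → S.card ≤ T.card

/-- The `γ`-graph `G(γ)`: its vertices are the `γ`-sets of `G`, and `S₁ ≠ S₂` are adjacent when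
`S₂ = (S₁ \ {v₁}) ∪ {v₂}` for some `v₁ ∈ S₁`, `v₂ ∈ S₂` with `v₁v₂ ∈ E(G)`. -/
def gammaGraph {V : Type} (G : SimpleGraph V) :
    SimpleGraph {S : Finset V // IsGammaSet G S} where
  Adj S₁ S₂ := S₁ ≠ S₂ ∧ ∃ v₁ ∈ S₁.1, ∃ v₂ ∈ S₂.1, G.Adj v₁ v₂ ∧
    (S₂.1 : Set V) = ((S₁.1 : Set V) \ {v₁}) ∪ {v₂}
  symm := ⟨by
    classical
    intro S T h
    obtain ⟨hne, v₁, h₁, v₂, h₂, hadj, heq⟩ := h
    have hne12 : v₁ ≠ v₂ := hadj.ne
    have heq' : T.1 = insert v₂ (S.1.erase v₁) := by
      apply Finset.coe_injective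
      rw [heq]
      ext x
      simp only [Set.mem_union, Set.mem_sdiff, Finset.mem_coe, Set.mem_singleton_iff,
        Finset.coe_insert, Finset.coe_erase, Set.mem_insert_iff]
      tauto
    have hcard : S.1.card = T.1.card :=
      le_antisymm (S.2.2 T.1 T.2.1) (T.2.2 S.1 S.2.1)
    have hv2 : v₂ ∉ S.1 := by
      intro hmem
      have h3 : T.1 = S.1.erase v₁ := by
        rw [heq']
        exact Finset.insert_eq_of_mem (Finset.mem_erase.2 ⟨hne12.symm, hmem⟩)
      have h4 : T.1.card < S.1.card := by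
        rw [h3]; exact Finset.card_erase_lt_of_mem h₁
      omega
    refine ⟨hne.symm, v₂, h₂, v₁, h₁, hadj.symm, ?_⟩
    rw [heq]
    ext x
    simp only [Set.mem_union, Set.mem_sdiff, Finset.mem_coe, Set.mem_singleton_iff]
    constructor
    · intro hx
      by_cases hx1 : x = v₁
      · right; exact hx1
      · left
        refine ⟨Or.inl ⟨hx, hx1⟩, ?_⟩
        rintro rfl
        exact hv2 hx
    · rintro (⟨⟨hx, _⟩ | hx, hx2⟩ | rfl)
      · exact hx
      · exact absurd hx hx2
      · exact h₁⟩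
  loopless := ⟨fun S h => h.1 rfl⟩

/-- A finite simple graph, with its vertex type. -/
structure FinGraph where
  /-- the vertices -/
  V : Type
  /-- finiteness -/
  finite : Finite V
  /-- the graph -/
  graph : SimpleGraph V

/-- The next graph `G(γ)` of the `γ`-graph sequence. -/
def next (X : FinGraph) : FinGraph :=
  ⟨{S : Finset X.V // IsGammaSet X.graph S},
    by have := X.finite; have := Fintype.ofFinite X.V; infer_instance, gammaGraph X.graph⟩

/-- The two graphs are isomorphic. -/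
def Isomorphic (X Y : FinGraph) : Prop := Nonempty (X.graph ≃g Y.graph)

end Pool.Agent.H1.GSeq
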