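import Pool.Agent.H1.GSeq.Defs

set_option autoImplicit false

namespace Pool.Agent.H1.GSeq

instance decDom {V : Type} [Fintype V] [DecidableEq V] (G : SimpleGraph V) [DecidableRel G.Adj]
    (S : Finset V) : Decidable (Dominating G S) := by
  unfold Dominating; infer_instance

theorem Dominating.mono {V : Type} {G : SimpleGraph V} {S T : Finset V} (h : Dominating G S)
    (hST : S ⊆ T) : Dominating G T := by
  intro v
  rcases h v with hv | ⟨u, hu, hadj⟩
  · exact Or.inl (hST hv)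
  · exact Or.inr ⟨u, hST hu, hadj⟩

theorem subset_pair (S : Finset (Fin 15)) (h : S.card ≤ 2) :
    ∃ a b : Fin 15, S ⊆ {a, b} := by
  interval_cases hc : S.card
  · exact ⟨0, 0, by rw [Finset.card_eq_zero.1 hc]; simp⟩
  · obtain ⟨a, rfl⟩ := Finset.card_eq_one.1 hc
    exact ⟨a, a, by simp⟩
  · obtain ⟨a, b, _, rfl⟩ := Finset.card_eq_two.1 hc
    exact ⟨a, b, subset_rfl⟩

theorem gamma_iso (X Y : SimpleGraph (Fin 15)) (T : Fin 15 → Finset (Fin 15))
    (h2 : ∀ a b, ¬ Dominating X {a, b})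
    (h3 : ∀ a b c, Dominating X {a, b, c} → ∃ i, T i = {a, b, c})
    (hT : ∀ i, Dominating X (T i) ∧ (T i).card = 3)
    (hinj : Function.Injective T)
    (hadj : ∀ i j, Y.Adj i j ↔ (T i ≠ T j ∧ ∃ v₁ ∈ T i, ∃ v₂ ∈ T j, X.Adj v₁ v₂ ∧
      T j = insert v₂ ((T i).erase v₁))) :
    Nonempty (gammaGraph X ≃g Y) := by
  have hge : ∀ S : Finset (Fin 15), Dominating X S → 3 ≤ S.card := by
    intro S hS
    by_contra hlt
    obtain ⟨a, b, hab⟩ := subset_pair S (by omega)
    exact h2 a b (hS.mono hab)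
  have hgam : ∀ i, IsGammaSet X (T i) := fun i =>
    ⟨(hT i).1, fun S hS => by rw [(hT i).2]; exact hge S hS⟩
  have hsurj : ∀ S : Finset (Fin 15), IsGammaSet X S → ∃ i, T i = S := by
    intro S hS
    have hc : S.card = 3 :=
      le_antisymm (by rw [← (hT 0).2]; exact hS.2 _ (hT 0).1) (hge S hS.1)
    obtain ⟨a, b, c, _, _, _, rfl⟩ := Finset.card_eq_three.1 hc
    exact h3 a b c hS.1
  let f : Fin 15 → {S : Finset (Fin 15) // IsGammaSet X S} := fun i => ⟨T i, hgam i⟩
  have hf : Function.Bijective f := by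
    constructor
    · intro i j hij
      exact hinj (Subtype.ext_iff.1 hij)
    · rintro ⟨S, hS⟩
      obtain ⟨i, hi⟩ := hsurj S hS
      exact ⟨i, Subtype.ext hi⟩
  let e : Fin 15 ≃ {S : Finset (Fin 15) // IsGammaSet X S} := Equiv.ofBijective f hf
  have hkey : ∀ i j, (gammaGraph X).Adj (f i) (f j) ↔ Y.Adj i j := by
    intro i j
    rw [hadj]
    show (f i ≠ f j ∧ ∃ v₁ ∈ T i, ∃ v₂ ∈ T j, X.Adj v₁ v₂ ∧
      (T j : Set (Fin 15)) = ((T i : Set (Fin 15)) \ {v₁}) ∪ {v₂}) ↔ _
    have h1 : f i ≠ f j ↔ T i ≠ T j := by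
      rw [Ne, Ne, Subtype.ext_iff]
    have h2 : ∀ v₁ v₂ : Fin 15, ((T j : Set (Fin 15)) = ((T i : Set (Fin 15)) \ {v₁}) ∪ {v₂}) ↔
        T j = insert v₂ ((T i).erase v₁) := by
      intro v₁ v₂
      rw [← Finset.coe_inj]
      have : (((T i : Set (Fin 15)) \ {v₁}) ∪ {v₂}) =
          ((insert v₂ ((T i).erase v₁) : Finset (Fin 15)) : Set (Fin 15)) := by
        ext x
        simp only [Set.mem_union, Set.mem_sdiff, Finset.mem_coe, Set.mem_singleton_iff,
          Finset.coe_insert, Finset.coe_erase, Set.mem_insert_iff]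
        tauto
      rw [this]
    rw [h1]
    simp only [h2]
  refine ⟨(RelIso.mk e.symm ?_)⟩
  intro S S'
  obtain ⟨i, rfl⟩ := e.surjective S
  obtain ⟨j, rfl⟩ := e.surjective S'
  rw [Equiv.symm_apply_apply, Equiv.symm_apply_apply]
  exact (hkey i j).symm

/-- transport of dominating sets along an isomorphism -/
theorem Dominating.map {V W : Type} {G : SimpleGraph V} {H : SimpleGraph W} (e : G ≃g H)
    {S : Finset V} (h : Dominating G S) : Dominating H (S.map e.toEquiv.toEmbedding) := by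
  intro w
  rcases h (e.symm w) with hv | ⟨u, hu, hadj⟩
  · left
    rw [Finset.mem_map]
    exact ⟨_, hv, by simp⟩
  · right
    refine ⟨e u, ?_, ?_⟩
    · rw [Finset.mem_map]; exact ⟨u, hu, rfl⟩
    · have := e.map_rel_iff.2 hadj
      simpa using this

theorem IsGammaSet.map {V W : Type} {G : SimpleGraph V} {H : SimpleGraph W} (e : G ≃g H)
    {S : Finset V} (h : IsGammaSet G S) : IsGammaSet H (S.map e.toEquiv.toEmbedding) := by
  refine ⟨h.1.map e, fun T hT => ?_⟩
  have := h.2 _ (hT.map e.symm)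
  simpa using this

theorem gamma_congr {V W : Type} {G : SimpleGraph V} {H : SimpleGraph W} (e : G ≃g H) :
    Nonempty (gammaGraph G ≃g gammaGraph H) := by
  classical
  let F : {S : Finset V // IsGammaSet G S} ≃ {S : Finset W // IsGammaSet H S} :=
    { toFun := fun S => ⟨S.1.map e.toEquiv.toEmbedding, S.2.map e⟩
      invFun := fun S => ⟨S.1.map e.symm.toEquiv.toEmbedding, S.2.map e.symm⟩
      left_inv := by
        intro S
        apply Subtype.ext
        ext x
        simp only [Finset.mem_map_equiv]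
        show e.symm (e.symm.symm x) ∈ S.1 ↔ x ∈ S.1
        rw [show e.symm (e.symm.symm x) = x from e.symm_apply_apply x]
      right_inv := by
        intro S
        apply Subtype.ext
        ext x
        simp only [Finset.mem_map_equiv]
        show e.symm.symm (e.symm x) ∈ S.1 ↔ x ∈ S.1
        rw [show e.symm.symm (e.symm x) = x from e.apply_symm_apply x] }
  refine ⟨RelIso.mk F ?_⟩
  intro S T
  show (F S ≠ F T ∧ ∃ v₁ ∈ (F S).1, ∃ v₂ ∈ (F T).1, H.Adj v₁ v₂ ∧
      ((F T).1 : Set W) = (((F S).1 : Set W) \ {v₁}) ∪ {v₂}) ↔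
    (S ≠ T ∧ ∃ v₁ ∈ S.1, ∃ v₂ ∈ T.1, G.Adj v₁ v₂ ∧
      (T.1 : Set V) = ((S.1 : Set V) \ {v₁}) ∪ {v₂})
  have hmem : ∀ (S : {S : Finset V // IsGammaSet G S}) (x : V), e x ∈ (F S).1 ↔ x ∈ S.1 := by
    intro S x
    show e x ∈ S.1.map e.toEquiv.toEmbedding ↔ _
    rw [Finset.mem_map]
    constructor
    · rintro ⟨y, hy, hyx⟩
      have : y = x := e.injective hyx
      rwa [← this]
    · intro hx; exact ⟨x, hx, rfl⟩
  have hset : ∀ x y : V, (((F T).1 : Set W) = (((F S).1 : Set W) \ {e x}) ∪ {e y}) ↔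
      ((T.1 : Set V) = ((S.1 : Set V) \ {x}) ∪ {y}) := by
    intro x y
    rw [Set.ext_iff, Set.ext_iff]
    constructor
    · intro h z
      have hz := h (e z)
      simp only [Set.mem_union, Set.mem_sdiff, Finset.mem_coe, Set.mem_singleton_iff, hmem,
        e.injective.eq_iff] at hz ⊢
      exact hz
    · intro h w
      obtain ⟨z, rfl⟩ := e.surjective w
      have hz := h z
      simp only [Set.mem_union, Set.mem_sdiff, Finset.mem_coe, Set.mem_singleton_iff, hmem,
        e.injective.eq_iff] at hz ⊢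
      exact hz
  constructor
  · rintro ⟨hne, w₁, h₁, w₂, h₂, hadj, heq⟩
    obtain ⟨v₁, rfl⟩ := e.surjective w₁
    obtain ⟨v₂, rfl⟩ := e.surjective w₂
    exact ⟨fun h => hne (by rw [h]), v₁, (hmem S v₁).1 h₁, v₂, (hmem T v₂).1 h₂,
      e.map_rel_iff.1 hadj, (hset v₁ v₂).1 heq⟩
  · rintro ⟨hne, v₁, h₁, v₂, h₂, hadj, heq⟩
    exact ⟨fun h => hne (F.injective h), e v₁, (hmem S v₁).2 h₁, e v₂, (hmem T v₂).2 h₂,
      e.map_rel_iff.2 hadj, (hset v₁ v₂).2 heq⟩

def mA : List Nat := [1920, 120, 8448, 6258, 106, 90, 17466, 1793, 9861, 1409, 17345, 4104,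
  18440, 16644, 13376]
def mB : List Nat := [1680, 22592, 1056, 24864, 1665, 1292, 22786, 1809, 232, 1169, 693, 20546,
  18498, 16392, 14410]

def adjA (i j : Fin 15) : Bool := Nat.testBit (mA.getD i.1 0) j.1
def adjB (i j : Fin 15) : Bool := Nat.testBit (mB.getD i.1 0) j.1

/-- the first graph -/
def GA : SimpleGraph (Fin 15) where
  Adj i j := adjA i j = true
  symm := ⟨by decide +kernel⟩
  loopless := ⟨by decide +kernel⟩

/-- the second graph -/
def GB : SimpleGraph (Fin 15) where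
  Adj i j := adjB i j = true
  symm := ⟨by decide +kernel⟩
  loopless := ⟨by decide +kernel⟩

instance : DecidableRel GA.Adj := fun i j => inferInstanceAs (Decidable (adjA i j = true))
instance : DecidableRel GB.Adj := fun i j => inferInstanceAs (Decidable (adjB i j = true))

def TA : Fin 15 → Finset (Fin 15) := ![{0, 3, 13}, {1, 8, 12}, {2, 3, 10}, {3, 6, 8}, {3, 7, 13},
  {3, 8, 10}, {3, 8, 12}, {3, 8, 13}, {3, 8, 14}, {3, 9, 13}, {3, 10, 13}, {4, 8, 12},
  {5, 8, 12}, {6, 8, 11}, {6, 8, 12}]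
def TB : Fin 15 → Finset (Fin 15) := ![{0, 5, 14}, {1, 3, 10}, {2, 7, 14}, {3, 6, 10},
  {3, 10, 11}, {3, 10, 12}, {3, 10, 14}, {4, 5, 14}, {5, 7, 14}, {5, 9, 14}, {5, 10, 14},
  {6, 10, 13}, {6, 10, 14}, {7, 10, 14}, {8, 10, 14}]

set_option maxRecDepth 100000 in
theorem isoAB : Nonempty (gammaGraph GA ≃g GB) := by
  apply gamma_iso GA GB TA
  · decide +kernel
  · decide +kernel
  · decide +kernel
  · decide +kernel
  · decide +kernel

set_option maxRecDepth 100000 in
theorem isoBA : Nonempty (gammaGraph GB ≃g GA) := by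
  apply gamma_iso GB GA TB
  · decide +kernel
  · decide +kernel
  · decide +kernel
  · decide +kernel
  · decide +kernel

/-- `GA` has a vertex with exactly three neighbours, `GB` does not. -/
theorem not_isoAB : ¬ Nonempty (GB ≃g GA) := by
  rintro ⟨e⟩
  have h1 : ∃ v : Fin 15, (Finset.univ.filter fun w => GA.Adj v w).card = 3 := by
    decide +kernel
  have h2 : ∀ v : Fin 15, (Finset.univ.filter fun w => GB.Adj v w).card ≠ 3 := by
    decide +kernel
  obtain ⟨v, hv⟩ := h1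
  apply h2 (e.symm v)
  rw [← hv]
  apply Finset.card_bij (fun w _ => e w)
  · intro w hw
    rw [Finset.mem_filter] at hw ⊢
    refine ⟨Finset.mem_univ _, ?_⟩
    have := e.map_rel_iff.2 hw.2
    simpa using this
  · intro a _ b _ hab
    exact e.injective hab
  · intro w hw
    rw [Finset.mem_filter] at hw
    refine ⟨e.symm w, ?_, by simp⟩
    rw [Finset.mem_filter]
    exact ⟨Finset.mem_univ _, e.symm.map_rel_iff.2 hw.2⟩

theorem main : ∃ (X : FinGraph) (k : ℕ), Nonempty X.V ∧ 2 ≤ k ∧ Isomorphic (next^[k] X) X ∧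
    ∀ i : ℕ, 0 < i → i < k → ¬ Isomorphic (next^[i] X) X := by
  refine ⟨⟨Fin 15, inferInstance, GA⟩, 2, ⟨(0 : Fin 15)⟩, le_rfl, ?_, ?_⟩
  · show Nonempty (gammaGraph (gammaGraph GA) ≃g GA)
    obtain ⟨e1⟩ := isoAB
    obtain ⟨e2⟩ := isoBA
    obtain ⟨e3⟩ := gamma_congr e1
    exact ⟨e3.trans e2⟩
  · intro i h1 h2
    have : i = 1 := by omega
    subst this
    show ¬ Nonempty (gammaGraph GA ≃g GA)
    rintro ⟨e⟩
    obtain ⟨e1⟩ := isoAB
    exact not_isoAB ⟨e1.symm.trans e⟩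

end Pool.Agent.H1.GSeq
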